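import Pool.Agent.Helper94.Tot.Goals

/-!
# Packet NB of MP_05f971_nt: large prime factors with the fixed factor `b`
-/

set_option autoImplicit false

open Finset Filter Topology

namespace Pool.Agent.Helper96.Tot

open Pool.Agent.Helper94.Tot

theorem prod_bound (S : Finset ℕ) (hS : ∀ p ∈ S, 2 ≤ p) :
    1 / ((S.card : ℝ) + 1) ≤ ∏ p ∈ S, (1 - 1 / (p : ℝ)) := by
  induction S using Finset.induction_on_max with
  | empty => simp
  | insert a s hlt ih =>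
    have ha : a ∉ s := fun h => lt_irrefl _ (hlt a h)
    have ha2 : 2 ≤ a := hS a (mem_insert_self _ _)
    have hs : ∀ p ∈ s, 2 ≤ p := fun p hp => hS p (mem_insert_of_mem hp)
    have hcard : s.card + 2 ≤ a := by
      have h1 : s ⊆ Ico 2 a := fun x hx => mem_Ico.2 ⟨hs x hx, hlt x hx⟩
      have h2 := card_le_card h1
      rw [Nat.card_Ico] at h2
      omega
    rw [prod_insert ha, card_insert_of_notMem ha]
    have h3 := ih hs
    have h4 : (0 : ℝ) < (s.card : ℝ) + 1 := by positivity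
    have h5 : ((s.card : ℝ) + 2) ≤ a := by exact_mod_cast hcard
    have h6 : 1 - 1 / ((s.card : ℝ) + 2) ≤ 1 - 1 / (a : ℝ) := by
      have : 1 / (a : ℝ) ≤ 1 / ((s.card : ℝ) + 2) :=
        one_div_le_one_div_of_le (by positivity) h5
      linarith
    have h7 : 0 ≤ 1 - 1 / ((s.card : ℝ) + 2) := by
      rw [sub_nonneg, div_le_one (by positivity)]; linarith
    calc 1 / (((s.card + 1 : ℕ) : ℝ) + 1) =
        (1 - 1 / ((s.card : ℝ) + 2)) * (1 / ((s.card : ℝ) + 1)) := by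
          push_cast; field_simp; ring
      _ ≤ (1 - 1 / (a : ℝ)) * ∏ p ∈ s, (1 - 1 / (p : ℝ)) := by
          apply mul_le_mul h6 h3 (by positivity) (h7.trans h6)

theorem two_pow_card {m : ℕ} (hm : m ≠ 0) : m.primeFactors.card ≤ Nat.log 2 m := by
  apply Nat.le_log_of_pow_le (by norm_num)
  calc 2 ^ m.primeFactors.card ≤ ∏ p ∈ m.primeFactors, p :=
        Finset.pow_card_le_prod _ _ _ (fun p hp => (Nat.prime_of_mem_primeFactors hp).two_le)
    _ ≤ m := Nat.le_of_dvd (Nat.pos_of_ne_zero hm) (Nat.prod_primeFactors_dvd m)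

theorem totient_bound {m : ℕ} (hm : m ≠ 0) :
    (m : ℝ) / (Nat.totient m : ℝ) ≤ (Nat.log 2 m : ℝ) + 1 := by
  have h1 : (Nat.totient m : ℝ) = m * ∏ p ∈ m.primeFactors, (1 - 1 / (p : ℝ)) := by
    have h2 := Nat.totient_eq_mul_prod_factors m
    have h3 : ((Nat.totient m : ℚ) : ℝ) = ((m * ∏ p ∈ m.primeFactors, (1 - (p : ℚ)⁻¹) : ℚ) : ℝ) := by
      rw [h2]
    push_cast at h3
    simpa [one_div] using h3
  have h2 := prod_bound m.primeFactors (fun p hp => (Nat.prime_of_mem_primeFactors hp).two_le)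
  have hm0 : (0 : ℝ) < m := by exact_mod_cast Nat.pos_of_ne_zero hm
  have h3 : ((m.primeFactors.card : ℝ)) ≤ Nat.log 2 m := by exact_mod_cast two_pow_card hm
  have hφ : (0 : ℝ) < Nat.totient m := by exact_mod_cast Nat.totient_pos.2 (Nat.pos_of_ne_zero hm)
  rw [div_le_iff₀ hφ, h1]
  have h4 : 1 / ((Nat.log 2 m : ℝ) + 1) ≤ ∏ p ∈ m.primeFactors, (1 - 1 / (p : ℝ)) :=
    (one_div_le_one_div_of_le (by positivity) (by linarith)).trans h2
  have h5 : (0 : ℝ) < (Nat.log 2 m : ℝ) + 1 := by positivity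
  calc (m : ℝ) = ((Nat.log 2 m : ℝ) + 1) * (m * (1 / ((Nat.log 2 m : ℝ) + 1))) := by
        field_simp
    _ ≤ ((Nat.log 2 m : ℝ) + 1) * (m * ∏ p ∈ m.primeFactors, (1 - 1 / (p : ℝ))) := by
        gcongr

theorem totient_bm {b m : ℕ} (hb : b = 1 ∨ b.Prime) (hm : m ≠ 0) :
    ((b * m : ℕ) : ℝ) / (Nat.totient (b * m) : ℝ) ≤ 2 * ((Nat.log 2 m : ℝ) + 1) := by
  have hb0 : b ≠ 0 := by
    rcases hb with rfl | h
    · norm_num
    · exact h.ne_zero
  have h1 := totient_bound hm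
  have hφb : (0 : ℝ) < Nat.totient b := by
    exact_mod_cast Nat.totient_pos.2 (Nat.pos_of_ne_zero hb0)
  have hφm : (0 : ℝ) < Nat.totient m := by
    exact_mod_cast Nat.totient_pos.2 (Nat.pos_of_ne_zero hm)
  have h2 : (b : ℝ) / (Nat.totient b : ℝ) ≤ 2 := by
    rcases hb with rfl | h
    · simp
    · rw [Nat.totient_prime h, div_le_iff₀ (by
        have := h.two_le
        have : (0 : ℝ) < ((b - 1 : ℕ) : ℝ) := by
          exact_mod_cast (by omega : 0 < b - 1)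
        exact this)]
      have := h.two_le
      have h3 : b ≤ 2 * (b - 1) := by omega
      exact_mod_cast h3
  have h3 : ((Nat.totient b * Nat.totient m : ℕ) : ℝ) ≤ (Nat.totient (b * m) : ℝ) := by
    exact_mod_cast Nat.totient_super_multiplicative b m
  push_cast at h3 ⊢
  have hm0 : (0 : ℝ) < m := by exact_mod_cast Nat.pos_of_ne_zero hm
  calc (b : ℝ) * m / (Nat.totient (b * m) : ℝ) ≤ (b : ℝ) * m / (Nat.totient b * Nat.totient m) := by
        gcongr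
    _ = ((b : ℝ) / Nat.totient b) * (m / Nat.totient m) := by field_simp
    _ ≤ 2 * ((Nat.log 2 m : ℝ) + 1) := by gcongr

/-- at most two dyadic scales -/
theorem card_scales (J : Finset ℕ) (n y : ℕ) :
    (J.filter (fun j => 2 ^ n < 2 * (y * 2 ^ j) ∧ y * 2 ^ j ≤ 2 ^ (n + 1))).card ≤ 2 := by
  set T := J.filter (fun j => 2 ^ n < 2 * (y * 2 ^ j) ∧ y * 2 ^ j ≤ 2 ^ (n + 1)) with hT
  rcases T.eq_empty_or_nonempty with h | h
  · rw [h]; simp
  · set j0 := T.min' h with hj0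
    have hj0T : j0 ∈ T := T.min'_mem h
    have hsub : T ⊆ {j0, j0 + 1} := by
      intro j hj
      have h1 : j0 ≤ j := T.min'_le j hj
      rw [hT, mem_filter] at hj hj0T
      rw [mem_insert, mem_singleton]
      by_contra hcon
      push Not at hcon
      have h2 : j0 + 2 ≤ j := by omega
      have h3 : 2 ^ (j0 + 2) ≤ 2 ^ j := Nat.pow_le_pow_right (by norm_num) h2
      have h4 : y * 2 ^ (j0 + 2) ≤ y * 2 ^ j := Nat.mul_le_mul_left _ h3
      have h5 : y * 2 ^ (j0 + 2) = 2 * (2 * (y * 2 ^ j0)) := by rw [pow_add]; ring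
      have h6 : 2 ^ (n + 1) = 2 * 2 ^ n := by rw [pow_succ]; ring
      have h7 := hj.2.2
      have h8 := hj0T.2.1
      omega
    exact (card_le_card hsub).trans card_le_two

theorem harm (m : ℕ) : ∑ i ∈ Icc 1 m, 1 / (i : ℝ) ≤ 1 + Real.log m := by
  have h1 := harmonic_le_one_add_log m
  have h2 : ((harmonic m : ℚ) : ℝ) = ∑ i ∈ Icc 1 m, 1 / (i : ℝ) := by
    rw [harmonic_eq_sum_Icc]
    push_cast
    simp [one_div]
  rw [← h2]; exact h1

/-- the condition on the pair `(m, k)` -/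
def cond (n b κ m k : ℕ) : Prop :=
  (b * m * k + 1).Prime ∧ 2 ^ n < b * m * k + 1 ∧ b * m * k + 1 ≤ 2 ^ (n + 1) ∧ m ^ κ < 2 ^ n

open Classical in
/-- the inner sum for fixed `m` -/
noncomputable def VV (n b κ : ℕ) (W : ℕ → ℝ) (m : ℕ) : ℝ :=
  ∑ k ∈ (PN (n + 1)).filter (fun k => cond n b κ m k), W k

theorem VV_nonneg {n b κ : ℕ} {W : ℕ → ℝ} (hW : ∀ k, 0 ≤ W k) (m : ℕ) : 0 ≤ VV n b κ W m :=
  sum_nonneg fun k _ => hW k

theorem mem_PN {n k : ℕ} : k ∈ PN n ↔ k.Prime ∧ k ≤ 2 ^ n := by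
  rw [PN, mem_filter, mem_Icc]
  constructor
  · rintro ⟨⟨_, h2⟩, h3⟩; exact ⟨h3, h2⟩
  · rintro ⟨h1, h2⟩; exact ⟨⟨h1.one_lt.le, h2⟩, h1⟩

open Classical in
theorem card_le_cond {n b κ k : ℕ} (hb : 1 ≤ b) (hk : 1 ≤ k) (hκ : 1 ≤ κ) :
    ((DB n).filter (fun p => b * k ∣ p - 1 ∧ ((p - 1) / (b * k)) ^ κ < 2 ^ n)).card ≤
      ((Icc 1 (2 ^ n)).filter (fun m => cond n b κ m k)).card := by
  have hbk : 0 < b * k := Nat.mul_pos hb hk
  apply card_le_card_of_injOn (fun p => (p - 1) / (b * k))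
  · intro p hp
    rw [mem_coe, mem_filter, DB, mem_filter, mem_Ioc] at hp
    obtain ⟨⟨⟨h1, h2⟩, h3⟩, ⟨m, hm⟩, h5⟩ := hp
    have hm' : (p - 1) / (b * k) = m := by rw [hm]; exact Nat.mul_div_cancel_left m hbk
    rw [hm'] at h5
    have hp1 : b * m * k + 1 = p := by
      have : b * m * k = b * k * m := by ring
      rw [this, ← hm]; omega
    have h2n : 1 ≤ 2 ^ n := Nat.one_le_two_pow
    have hm1 : 1 ≤ m := by
      rcases Nat.eq_zero_or_pos m with h | h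
      · subst h
        rw [mul_zero] at hm
        omega
      · exact h
    show (p - 1) / (b * k) ∈ ((Icc 1 (2 ^ n)).filter (fun m => cond n b κ m k) : Finset ℕ)
    rw [hm', mem_filter, mem_Icc]
    refine ⟨⟨hm1, ?_⟩, ?_⟩
    · have : m ^ 1 ≤ m ^ κ := Nat.pow_le_pow_right hm1 hκ
      rw [pow_one] at this
      omega
    · exact ⟨by rw [hp1]; exact h3, by rw [hp1]; exact h1, by rw [hp1]; exact h2, h5⟩
  · intro p hp q hq hpq
    rw [mem_coe, mem_filter, DB, mem_filter, mem_Ioc] at hp hq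
    have hpq' : (p - 1) / (b * k) = (q - 1) / (b * k) := hpq
    have h1 := Nat.div_mul_cancel hp.2.1
    have h2 := Nat.div_mul_cancel hq.2.1
    have h3 := hp.1.2.one_lt
    have h4 := hq.1.2.one_lt
    rw [hpq'] at h1
    omega

open Classical in
theorem step1 {n b κ : ℕ} (hb : 1 ≤ b) (hκ : 1 ≤ κ) {W : ℕ → ℝ} (hW : ∀ k, 0 ≤ W k) :
    ∑ k ∈ PN (n + 1), W k *
      (((DB n).filter (fun p => b * k ∣ p - 1 ∧ ((p - 1) / (b * k)) ^ κ < 2 ^ n)).card : ℝ) ≤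
    ∑ m ∈ Icc 1 (2 ^ n), VV n b κ W m := by
  have h1 : ∀ k ∈ PN (n + 1), W k *
      (((DB n).filter (fun p => b * k ∣ p - 1 ∧ ((p - 1) / (b * k)) ^ κ < 2 ^ n)).card : ℝ) ≤
      ∑ m ∈ Icc 1 (2 ^ n), if cond n b κ m k then W k else 0 := by
    intro k hk
    have hk1 : 1 ≤ k := (mem_PN.1 hk).1.one_lt.le
    have h2 := card_le_cond (n := n) (κ := κ) hb hk1 hκ
    rw [← sum_filter, sum_const, nsmul_eq_mul, mul_comm]
    gcongr
    exact hW k
  refine (sum_le_sum h1).trans (le_of_eq ?_)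
  rw [sum_comm]
  apply sum_congr rfl
  intro m _
  rw [VV, sum_filter]

/-- small `m` -/
theorem VV_small {CT : ℝ} (hCT : 0 < CT)
    (hTW : ∀ a N : ℕ, 1 ≤ a → 2 ≤ N →
      (((Icc 1 N).filter (fun t => t.Prime ∧ (a * t + 1).Prime)).card : ℝ)
        ≤ CT * (N / (Real.log N) ^ 2) * (a / (Nat.totient a : ℝ)))
    {n b κ m : ℕ} (hb : b = 1 ∨ b.Prime) (hm : 1 ≤ m) (hn : 8 ≤ n)
    (hbm : b * m * 2 ^ ((n + 1) / 4) ≤ 2 ^ (n + 1)) {W : ℕ → ℝ} {B : ℝ} (hB : 0 ≤ B)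
    (hWB : ∀ k ∈ PN (n + 1), W k ≤ B) :
    VV n b κ W m ≤ B * (256 * CT * (2 ^ n / (b * (n : ℝ) ^ 2)) * ((Nat.log 2 m : ℝ) + 1) * (1 / m)) := by
  classical
  have hb1 : 1 ≤ b := by
    rcases hb with rfl | h
    · exact le_rfl
    · exact h.one_lt.le
  have hbm1 : 1 ≤ b * m := Nat.mul_pos hb1 hm
  set N := 2 ^ (n + 1) / (b * m) with hN
  have hNlow : 2 ^ ((n + 1) / 4) ≤ N := by
    rw [hN, Nat.le_div_iff_mul_le (by omega), mul_comm]
    exact hbm
  have hN2 : 2 ≤ N := by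
    refine le_trans ?_ hNlow
    calc 2 = 2 ^ 1 := by norm_num
      _ ≤ 2 ^ ((n + 1) / 4) := Nat.pow_le_pow_right (by norm_num) (by omega)
  have hlog : (n : ℝ) / 8 ≤ Real.log N := by
    have h1 : Real.log ((2 : ℝ) ^ ((n + 1) / 4)) ≤ Real.log N := by
      apply Real.log_le_log (by positivity)
      exact_mod_cast hNlow
    rw [Real.log_pow] at h1
    have h2 := Real.log_two_gt_d9
    have h3 : n - 2 ≤ 4 * ((n + 1) / 4) := by omega
    have h4 : ((n : ℝ) - 2) ≤ 4 * (((n + 1) / 4 : ℕ) : ℝ) := by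
      have : ((n - 2 : ℕ) : ℝ) ≤ ((4 * ((n + 1) / 4) : ℕ) : ℝ) := by exact_mod_cast h3
      rw [Nat.cast_sub (by omega)] at this
      push_cast at this ⊢
      exact this
    have hn8 : (8 : ℝ) ≤ n := by exact_mod_cast hn
    have h5 : (0 : ℝ) ≤ (((n + 1) / 4 : ℕ) : ℝ) := by positivity
    nlinarith
  have hnpos : (0 : ℝ) < n := by
    have : (8 : ℝ) ≤ n := by exact_mod_cast hn
    linarith
  have hNreal : (N : ℝ) ≤ 2 ^ (n + 1) / (b * m) := by
    have := Nat.cast_div_le (α := ℝ) (m := 2 ^ (n + 1)) (n := b * m)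
    push_cast at this
    exact this
  have hcard : ((PN (n + 1)).filter (fun k => cond n b κ m k)).card ≤
      ((Icc 1 N).filter (fun t => t.Prime ∧ (b * m * t + 1).Prime)).card := by
    apply card_le_card
    intro k hk
    rw [mem_filter, mem_PN] at hk
    rw [mem_filter, mem_Icc]
    obtain ⟨⟨h1, h2⟩, h3, h4, h5, h6⟩ := hk
    refine ⟨⟨h1.one_lt.le, ?_⟩, h1, h3⟩
    rw [hN, Nat.le_div_iff_mul_le (by omega)]
    have : k * (b * m) = b * m * k := by ring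
    rw [this]; omega
  have hTW' := hTW (b * m) N hbm1 hN2
  have htot := totient_bm hb (by omega : m ≠ 0)
  have h1 : VV n b κ W m ≤ B * (((PN (n + 1)).filter (fun k => cond n b κ m k)).card : ℝ) := by
    rw [VV, mul_comm, ← nsmul_eq_mul]
    apply sum_le_card_nsmul
    intro k hk
    exact hWB k (mem_filter.1 hk).1
  refine h1.trans ?_
  apply mul_le_mul_of_nonneg_left _ hB
  have h2 : (((PN (n + 1)).filter (fun k => cond n b κ m k)).card : ℝ) ≤
      CT * (N / (Real.log N) ^ 2) * ((b * m : ℕ) / (Nat.totient (b * m) : ℝ)) :=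
    le_trans (by exact_mod_cast hcard) hTW'
  refine h2.trans ?_
  have hb0 : (0 : ℝ) < b := by exact_mod_cast hb1
  have hm0 : (0 : ℝ) < m := by exact_mod_cast hm
  have hlogpos : 0 < Real.log N := lt_of_lt_of_le (by positivity) hlog
  calc CT * (N / (Real.log N) ^ 2) * ((b * m : ℕ) / (Nat.totient (b * m) : ℝ)) ≤
        CT * ((2 ^ (n + 1) / (b * m)) / ((n : ℝ) / 8) ^ 2) * (2 * ((Nat.log 2 m : ℝ) + 1)) := by
        gcongr
    _ = _ := by rw [pow_succ]; field_simp; ring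

open Classical in
/-- one dyadic scale -/
theorem scale_bound {C1 : ℝ} (hC1 : 0 < C1) {n b κ M : ℕ} (hn : 1 ≤ n) (hb : 1 ≤ b) (hM : 1 ≤ M)
    (hBL : ∀ w : ℕ → ℝ, (∀ k, 0 ≤ w k ∧ w k ≤ 1) →
      ∑ m ∈ Ico M (2 * M), ∑ k ∈ (Icc 1 (2 ^ (n + 1) / (b * M))).filter
        (fun k => k.Prime ∧ (b * m * k + 1).Prime), w k
      ≤ C1 * (M / n) * ∑ k ∈ (Icc 1 (2 ^ (n + 1) / (b * M))).filter Nat.Prime, w k
        + 2 ^ n / (b * (n : ℝ) ^ 10))
    {W : ℕ → ℝ} {B : ℝ} (hB : 0 < B) (hW : ∀ k, 0 ≤ W k) (hWB : ∀ k ∈ PN (n + 1), W k ≤ B) :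
    ∑ m ∈ Ico M (2 * M), VV n b κ W m ≤
      C1 * (2 ^ (n + 1) / (b * n)) *
        ∑ k ∈ (PN (n + 1)).filter (fun k => 2 ^ n < 2 * (b * k * M) ∧ b * k * M ≤ 2 ^ (n + 1)),
          W k / k + B * (2 ^ n / (b * (n : ℝ) ^ 10)) := by
  set w : ℕ → ℝ := fun k => if k ∈ PN (n + 1) ∧ 2 ^ n < 2 * (b * k * M) then W k / B else 0 with hw
  have hw01 : ∀ k, 0 ≤ w k ∧ w k ≤ 1 := by
    intro k
    by_cases h : k ∈ PN (n + 1) ∧ 2 ^ n < 2 * (b * k * M)
    · have h1 : w k = W k / B := by simp only [hw]; rw [if_pos h]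
      rw [h1]
      exact ⟨div_nonneg (hW k) hB.le, by rw [div_le_one hB]; exact hWB k h.1⟩
    · have h1 : w k = 0 := by simp only [hw]; rw [if_neg h]
      rw [h1]; exact ⟨le_rfl, zero_le_one⟩
  have hbM : 0 < b * M := Nat.mul_pos hb hM
  have h1 : ∀ m ∈ Ico M (2 * M), VV n b κ W m ≤
      B * ∑ k ∈ (Icc 1 (2 ^ (n + 1) / (b * M))).filter
        (fun k => k.Prime ∧ (b * m * k + 1).Prime), w k := by
    intro m hm
    rw [mem_Ico] at hm
    rw [VV, mul_sum]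
    have h2 : ∀ k ∈ (PN (n + 1)).filter (fun k => cond n b κ m k), W k = B * w k := by
      intro k hk
      rw [mem_filter] at hk
      obtain ⟨hk1, h3, h4, h5, h6⟩ := hk
      have hkp := (mem_PN.1 hk1).1.one_lt
      have h7 : 2 ^ n < 2 * (b * k * M) := by
        have h8 : b * m * k < b * (2 * M) * k := by
          apply Nat.mul_lt_mul_of_pos_right _ (by omega)
          exact Nat.mul_lt_mul_of_pos_left hm.2 hb
        have h9 : b * (2 * M) * k = 2 * (b * k * M) := by ring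
        omega
      have h8 : w k = W k / B := by simp only [hw]; rw [if_pos ⟨hk1, h7⟩]
      rw [h8]; field_simp
    rw [sum_congr rfl h2]
    apply sum_le_sum_of_subset_of_nonneg
    · intro k hk
      rw [mem_filter] at hk
      obtain ⟨hk1, h3, h4, h5, h6⟩ := hk
      have hkp := (mem_PN.1 hk1).1
      rw [mem_filter, mem_Icc]
      refine ⟨⟨hkp.one_lt.le, ?_⟩, hkp, h3⟩
      rw [Nat.le_div_iff_mul_le hbM]
      have h8 : b * M * k ≤ b * m * k := by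
        apply Nat.mul_le_mul_right
        exact Nat.mul_le_mul_left _ hm.1
      have h9 : k * (b * M) = b * M * k := by ring
      omega
    · intro k _ _
      exact mul_nonneg hB.le (hw01 k).1
  have hn0 : (0 : ℝ) < n := by exact_mod_cast hn
  have hb0 : (0 : ℝ) < b := by exact_mod_cast hb
  have hM0 : (0 : ℝ) < M := by exact_mod_cast hM
  have h3 : B * (M * ∑ k ∈ (Icc 1 (2 ^ (n + 1) / (b * M))).filter Nat.Prime, w k) ≤
      (2 ^ (n + 1) / b) *
        ∑ k ∈ (PN (n + 1)).filter (fun k => 2 ^ n < 2 * (b * k * M) ∧ b * k * M ≤ 2 ^ (n + 1)),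
          W k / k := by
    rw [mul_sum, mul_sum, mul_sum]
    have h4 : ∑ k ∈ (Icc 1 (2 ^ (n + 1) / (b * M))).filter Nat.Prime, B * (M * w k) =
        ∑ k ∈ ((Icc 1 (2 ^ (n + 1) / (b * M))).filter Nat.Prime).filter
          (fun k => k ∈ PN (n + 1) ∧ 2 ^ n < 2 * (b * k * M)), B * (M * w k) := by
      symm
      apply sum_filter_of_ne
      intro k _ hne
      by_contra hcon
      apply hne
      have : w k = 0 := by simp only [hw]; rw [if_neg hcon]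
      rw [this]; ring
    rw [h4]
    refine (sum_le_sum (g := fun k => (2 ^ (n + 1) / (b : ℝ)) * (W k / k)) ?_).trans ?_
    · intro k hk
      rw [mem_filter, mem_filter, mem_Icc] at hk
      obtain ⟨⟨⟨hk1, hk2⟩, hk3⟩, hk4⟩ := hk
      have h5 : w k = W k / B := by simp only [hw]; rw [if_pos hk4]
      rw [h5]
      have hk0 : (0 : ℝ) < k := by exact_mod_cast hk1
      rw [Nat.le_div_iff_mul_le hbM] at hk2
      have h6 : (k : ℝ) * (b * M) ≤ 2 ^ (n + 1) := by exact_mod_cast hk2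
      have h7 : (M : ℝ) ≤ 2 ^ (n + 1) / (b * k) := by
        rw [le_div_iff₀ (by positivity)]; linarith
      calc B * (M * (W k / B)) = M * W k := by field_simp
        _ ≤ (2 ^ (n + 1) / (b * k)) * W k := by
            apply mul_le_mul_of_nonneg_right h7 (hW k)
        _ = (2 ^ (n + 1) / (b : ℝ)) * (W k / k) := by field_simp
    · apply sum_le_sum_of_subset_of_nonneg
      · intro k hk
        rw [mem_filter, mem_filter, mem_Icc] at hk
        obtain ⟨⟨⟨hk1, hk2⟩, hk3⟩, hk4⟩ := hk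
        rw [mem_filter]
        refine ⟨hk4.1, hk4.2, ?_⟩
        rw [Nat.le_div_iff_mul_le hbM] at hk2
        have : b * k * M = k * (b * M) := by ring
        rw [this]; exact hk2
      · intro k _ _
        have := hW k
        positivity
  have h5 := hBL w hw01
  calc ∑ m ∈ Ico M (2 * M), VV n b κ W m ≤ ∑ m ∈ Ico M (2 * M),
        B * ∑ k ∈ (Icc 1 (2 ^ (n + 1) / (b * M))).filter
          (fun k => k.Prime ∧ (b * m * k + 1).Prime), w k := sum_le_sum h1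
    _ = B * ∑ m ∈ Ico M (2 * M), ∑ k ∈ (Icc 1 (2 ^ (n + 1) / (b * M))).filter
          (fun k => k.Prime ∧ (b * m * k + 1).Prime), w k := by rw [mul_sum]
    _ ≤ B * (C1 * (M / n) * ∑ k ∈ (Icc 1 (2 ^ (n + 1) / (b * M))).filter Nat.Prime, w k
        + 2 ^ n / (b * (n : ℝ) ^ 10)) := by gcongr
    _ = C1 / n * (B * (M * ∑ k ∈ (Icc 1 (2 ^ (n + 1) / (b * M))).filter Nat.Prime, w k)) +
        B * (2 ^ n / (b * (n : ℝ) ^ 10)) := by ring
    _ ≤ C1 / n * ((2 ^ (n + 1) / b) *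
        ∑ k ∈ (PN (n + 1)).filter (fun k => 2 ^ n < 2 * (b * k * M) ∧ b * k * M ≤ 2 ^ (n + 1)),
          W k / k) + B * (2 ^ n / (b * (n : ℝ) ^ 10)) := by gcongr
    _ = _ := by field_simp

open Classical in
theorem large_part {C1 : ℝ} (hC1 : 0 < C1) {n b κ A : ℕ} (hn : 1 ≤ n) (hb : 1 ≤ b)
    (hBL : ∀ M : ℕ, n ^ A ≤ M → M ^ κ ≤ 2 ^ n → ∀ w : ℕ → ℝ, (∀ k, 0 ≤ w k ∧ w k ≤ 1) →
      ∑ m ∈ Ico M (2 * M), ∑ k ∈ (Icc 1 (2 ^ (n + 1) / (b * M))).filter
        (fun k => k.Prime ∧ (b * m * k + 1).Prime), w k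
      ≤ C1 * (M / n) * ∑ k ∈ (Icc 1 (2 ^ (n + 1) / (b * M))).filter Nat.Prime, w k
        + 2 ^ n / (b * (n : ℝ) ^ 10))
    {W : ℕ → ℝ} {B : ℝ} (hB : 0 < B) (hW : ∀ k, 0 ≤ W k) (hWB : ∀ k ∈ PN (n + 1), W k ≤ B) :
    ∑ m ∈ (Icc 1 (2 ^ n)).filter (fun m => ¬ m < 2 * n ^ A), VV n b κ W m ≤
      4 * C1 * (2 ^ n / (b * n)) * ∑ k ∈ PN (n + 1), W k / k +
        2 * B * (2 ^ n / (b * (n : ℝ) ^ 9)) := by
  set S := ((Icc 1 (2 ^ n)).filter (fun m => ¬ m < 2 * n ^ A)).filter (fun m => m ^ κ < 2 ^ n)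
    with hS
  set J := (range (n + 1)).filter (fun j => n ^ A ≤ 2 ^ j ∧ (2 ^ j) ^ κ ≤ 2 ^ n) with hJ
  have hn0 : (0 : ℝ) < n := by exact_mod_cast hn
  have hb0 : (0 : ℝ) < b := by exact_mod_cast hb
  have h1 : ∑ m ∈ (Icc 1 (2 ^ n)).filter (fun m => ¬ m < 2 * n ^ A), VV n b κ W m =
      ∑ m ∈ S, VV n b κ W m := by
    symm
    apply sum_filter_of_ne
    intro m _ hne
    by_contra hcon
    apply hne
    rw [VV]
    apply sum_eq_zero
    intro k hk
    exact absurd (mem_filter.1 hk).2.2.2.2 hcon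
  have hmaps : ∀ m ∈ S, Nat.log 2 m ∈ J := by
    intro m hm
    rw [hS, mem_filter, mem_filter, mem_Icc] at hm
    obtain ⟨⟨⟨h2, h3⟩, h4⟩, h5⟩ := hm
    have h6 : 2 ^ Nat.log 2 m ≤ m := Nat.pow_log_le_self 2 (by omega)
    have h7 : m < 2 ^ (Nat.log 2 m + 1) := Nat.lt_pow_succ_log_self (by norm_num) m
    rw [pow_succ] at h7
    rw [hJ, mem_filter, mem_range]
    refine ⟨?_, ?_, ?_⟩
    · have : 2 ^ Nat.log 2 m ≤ 2 ^ n := h6.trans h3
      have := (Nat.pow_le_pow_iff_right (by norm_num : 1 < 2)).1 this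
      omega
    · omega
    · exact (Nat.pow_le_pow_left h6 κ).trans h5.le
  rw [h1, ← sum_fiberwise_of_maps_to hmaps]
  have h2 : ∀ j ∈ J, ∑ m ∈ S.filter (fun m => Nat.log 2 m = j), VV n b κ W m ≤
      C1 * (2 ^ (n + 1) / (b * n)) *
        ∑ k ∈ (PN (n + 1)).filter
          (fun k => 2 ^ n < 2 * (b * k * 2 ^ j) ∧ b * k * 2 ^ j ≤ 2 ^ (n + 1)),
          W k / k + B * (2 ^ n / (b * (n : ℝ) ^ 10)) := by
    intro j hj
    rw [hJ, mem_filter] at hj
    refine le_trans ?_ (scale_bound (κ := κ) hC1 hn hb (Nat.one_le_two_pow (n := j))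
      (hBL (2 ^ j) hj.2.1 hj.2.2) hB hW hWB)
    apply sum_le_sum_of_subset_of_nonneg
    · intro m hm
      rw [mem_filter] at hm
      obtain ⟨hm1, hm2⟩ := hm
      rw [hS, mem_filter, mem_filter, mem_Icc] at hm1
      have h6 : 2 ^ Nat.log 2 m ≤ m := Nat.pow_log_le_self 2 (by omega)
      have h7 : m < 2 ^ (Nat.log 2 m + 1) := Nat.lt_pow_succ_log_self (by norm_num) m
      rw [pow_succ] at h7
      rw [hm2] at h6 h7
      rw [mem_Ico]; omega
    · intro m _ _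
      exact VV_nonneg hW m
  refine (sum_le_sum h2).trans ?_
  rw [sum_add_distrib, sum_const, ← mul_sum]
  have h3 : ∑ j ∈ J, ∑ k ∈ (PN (n + 1)).filter
          (fun k => 2 ^ n < 2 * (b * k * 2 ^ j) ∧ b * k * 2 ^ j ≤ 2 ^ (n + 1)), W k / k ≤
      2 * ∑ k ∈ PN (n + 1), W k / k := by
    have h4 : ∀ j ∈ J, ∑ k ∈ (PN (n + 1)).filter
          (fun k => 2 ^ n < 2 * (b * k * 2 ^ j) ∧ b * k * 2 ^ j ≤ 2 ^ (n + 1)), W k / (k : ℝ) =
        ∑ k ∈ PN (n + 1), if (2 ^ n < 2 * (b * k * 2 ^ j) ∧ b * k * 2 ^ j ≤ 2 ^ (n + 1)) then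
          W k / (k : ℝ) else 0 := fun j _ => sum_filter _ _
    rw [sum_congr rfl h4, sum_comm, mul_sum]
    apply sum_le_sum
    intro k _
    rw [← sum_filter, sum_const, nsmul_eq_mul]
    have h5 := card_scales J n (b * k)
    have h6 : ((J.filter (fun j => 2 ^ n < 2 * (b * k * 2 ^ j) ∧
      b * k * 2 ^ j ≤ 2 ^ (n + 1))).card : ℝ) ≤ 2 := by exact_mod_cast h5
    have := hW k
    gcongr
  have hJc : (J.card : ℝ) ≤ 2 * n := by
    have h4 : J.card ≤ n + 1 := by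
      rw [hJ]
      exact (card_filter_le _ _).trans (by rw [card_range])
    have h5 : J.card ≤ 2 * n := by omega
    exact_mod_cast h5
  have h5 : J.card • (B * (2 ^ n / (b * (n : ℝ) ^ 10))) ≤ 2 * B * (2 ^ n / (b * (n : ℝ) ^ 9)) := by
    rw [nsmul_eq_mul]
    calc (J.card : ℝ) * (B * (2 ^ n / (b * (n : ℝ) ^ 10))) ≤
          (2 * n) * (B * (2 ^ n / (b * (n : ℝ) ^ 10))) := by gcongr
      _ = _ := by field_simp
  have h6 : C1 * (2 ^ (n + 1) / (b * n)) * ∑ j ∈ J, ∑ k ∈ (PN (n + 1)).filter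
          (fun k => 2 ^ n < 2 * (b * k * 2 ^ j) ∧ b * k * 2 ^ j ≤ 2 ^ (n + 1)), W k / k ≤
      C1 * (2 ^ (n + 1) / (b * n)) * (2 * ∑ k ∈ PN (n + 1), W k / k) := by gcongr
  have h7 : C1 * (2 ^ (n + 1) / (b * n)) * (2 * ∑ k ∈ PN (n + 1), W k / k) =
      4 * C1 * (2 ^ n / (b * n)) * ∑ k ∈ PN (n + 1), W k / k := by
    rw [pow_succ]; ring
  rw [h7] at h6
  exact add_le_add h6 h5

theorem exists_n1 (A : ℕ) : ∃ n1 : ℕ, 8 ≤ n1 ∧ ∀ n, n1 ≤ n →
    4 * n ^ (2 * A) * 2 ^ (2 * ((n + 1) / 4)) ≤ 2 ^ (n + 1) := by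
  have hr : (1 : ℝ) < √2 := by
    rw [Real.lt_sqrt (by norm_num)]; norm_num
  have hr2 : (√2 : ℝ) ^ 2 = 2 := Real.sq_sqrt (by norm_num)
  have h1 := tendsto_pow_const_div_const_pow_of_one_lt (2 * A) hr
  obtain ⟨n2, hn2⟩ := eventually_atTop.1 (h1.eventually (gt_mem_nhds (show (0 : ℝ) < 1 / 4 by norm_num)))
  refine ⟨max 8 n2, le_max_left _ _, ?_⟩
  intro n hn
  have h2 := hn2 n ((le_max_right _ _).trans hn)
  have hrpos : (0 : ℝ) < √2 := by positivity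
  rw [div_lt_iff₀ (by positivity)] at h2
  have h3 : (4 : ℝ) * n ^ (2 * A) ≤ √2 ^ (n + 1) := by
    rw [pow_succ]
    have : (0 : ℝ) < √2 ^ n := by positivity
    nlinarith
  have h4 : (2 : ℝ) ^ (2 * ((n + 1) / 4)) ≤ √2 ^ (n + 1) := by
    have h5 : (2 : ℝ) ^ (2 * ((n + 1) / 4)) = √2 ^ (4 * ((n + 1) / 4)) := by
      have : 4 * ((n + 1) / 4) = 2 * (2 * ((n + 1) / 4)) := by ring
      rw [this, pow_mul (√2) 2, hr2]
    rw [h5]
    exact pow_le_pow_right₀ hr.le (by omega)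
  have h5 : (2 : ℝ) ^ (n + 1) = √2 ^ (n + 1) * √2 ^ (n + 1) := by
    rw [← mul_pow, ← sq, hr2]
  have h6 : (4 : ℝ) * n ^ (2 * A) * 2 ^ (2 * ((n + 1) / 4)) ≤ 2 ^ (n + 1) := by
    rw [h5]; gcongr
  exact_mod_cast h6

open Classical in
theorem small_part {CT : ℝ} (hCT : 0 < CT)
    (hTW : ∀ a N : ℕ, 1 ≤ a → 2 ≤ N →
      (((Icc 1 N).filter (fun t => t.Prime ∧ (a * t + 1).Prime)).card : ℝ)
        ≤ CT * (N / (Real.log N) ^ 2) * (a / (Nat.totient a : ℝ)))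
    {n b κ A : ℕ} (hb : b = 1 ∨ b.Prime) (hb2 : b ^ 2 ≤ 2 ^ (n + 1)) (hn : 8 ≤ n)
    (hn1 : 4 * n ^ (2 * A) * 2 ^ (2 * ((n + 1) / 4)) ≤ 2 ^ (n + 1))
    {W : ℕ → ℝ} {B : ℝ} (hB : 0 ≤ B)
    (hWB : ∀ k ∈ PN (n + 1), W k ≤ B) :
    ∑ m ∈ (Icc 1 (2 ^ n)).filter (fun m => m < 2 * n ^ A), VV n b κ W m ≤
      256 * CT * (2 + 6 * A) ^ 2 * B * (2 ^ n / (b * (n * √n))) := by
  have hb1 : 1 ≤ b := by
    rcases hb with rfl | h
    · exact le_rfl
    · exact h.one_lt.le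
  have hn8 : (8 : ℝ) ≤ n := by exact_mod_cast hn
  have hn0 : (0 : ℝ) < n := by linarith
  have hb0 : (0 : ℝ) < b := by exact_mod_cast hb1
  set L : ℝ := 2 + A * Real.logb 2 n with hL
  have hnA : (0 : ℝ) < (n : ℝ) ^ A := by positivity
  have hlogb : Real.logb 2 (2 * (n : ℝ) ^ A) = 1 + A * Real.logb 2 n := by
    rw [Real.logb_mul (by norm_num) hnA.ne', Real.logb_self_eq_one (by norm_num), Real.logb_pow]
  have hl2 := Real.log_two_gt_d9
  have hl2' := Real.log_two_lt_d9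
  have hlogn : 0 ≤ Real.log n := Real.log_nonneg (by linarith)
  have hlogle : Real.log n ≤ Real.logb 2 n := by
    rw [Real.logb, le_div_iff₀ (by linarith)]
    nlinarith
  have hLlog : 1 + Real.log ((2 * n ^ A : ℕ) : ℝ) ≤ L := by
    push_cast
    rw [Real.log_mul (by norm_num) hnA.ne', Real.log_pow, hL]
    have : (A : ℝ) * Real.log n ≤ A * Real.logb 2 n := by gcongr
    linarith
  have hL0 : 0 ≤ L := by
    rw [hL]
    have : 0 ≤ Real.logb 2 n := hlogn.trans hlogle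
    positivity
  have hterm : ∀ m ∈ (Icc 1 (2 ^ n)).filter (fun m => m < 2 * n ^ A), VV n b κ W m ≤
      (B * (256 * CT * (2 ^ n / (b * (n : ℝ) ^ 2)) * L)) * (1 / (m : ℝ)) := by
    intro m hm
    rw [mem_filter, mem_Icc] at hm
    obtain ⟨⟨hm1, _⟩, hm2⟩ := hm
    have hbm : b * m * 2 ^ ((n + 1) / 4) ≤ 2 ^ (n + 1) := by
      rw [← Nat.pow_le_pow_iff_left (n := 2) (by norm_num)]
      have h1 : m ^ 2 ≤ 4 * n ^ (2 * A) := by
        calc m ^ 2 ≤ (2 * n ^ A) ^ 2 := Nat.pow_le_pow_left hm2.le 2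
          _ = 4 * n ^ (2 * A) := by rw [mul_pow, ← pow_mul, mul_comm A 2]; norm_num
      calc (b * m * 2 ^ ((n + 1) / 4)) ^ 2 = b ^ 2 * (m ^ 2 * 2 ^ (2 * ((n + 1) / 4))) := by
            rw [mul_pow, mul_pow, ← pow_mul, mul_comm ((n + 1) / 4) 2]; ring
        _ ≤ 2 ^ (n + 1) * (4 * n ^ (2 * A) * 2 ^ (2 * ((n + 1) / 4))) := by gcongr
        _ ≤ 2 ^ (n + 1) * 2 ^ (n + 1) := by gcongr
        _ = (2 ^ (n + 1)) ^ 2 := by ring
    refine (VV_small (κ := κ) hCT hTW hb hm1 hn hbm hB hWB).trans ?_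
    have h3 : (Nat.log 2 m : ℝ) + 1 ≤ L := by
      have h4 := Real.natLog_le_logb m 2
      push_cast at h4
      have hm0 : (0 : ℝ) < m := by exact_mod_cast hm1
      have h5 : Real.logb 2 m ≤ Real.logb 2 (2 * (n : ℝ) ^ A) := by
        apply Real.logb_le_logb_of_le (by norm_num) hm0
        exact_mod_cast hm2.le
      rw [hlogb] at h5
      rw [hL]; linarith
    calc B * (256 * CT * (2 ^ n / (b * (n : ℝ) ^ 2)) * ((Nat.log 2 m : ℝ) + 1) * (1 / m)) ≤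
          B * (256 * CT * (2 ^ n / (b * (n : ℝ) ^ 2)) * L * (1 / m)) := by gcongr
      _ = _ := by ring
  refine (sum_le_sum hterm).trans ?_
  rw [← mul_sum]
  have hsum : ∑ m ∈ (Icc 1 (2 ^ n)).filter (fun m => m < 2 * n ^ A), 1 / (m : ℝ) ≤ L := by
    refine le_trans ?_ ((harm (2 * n ^ A)).trans hLlog)
    apply sum_le_sum_of_subset_of_nonneg
    · intro m hm
      rw [mem_filter, mem_Icc] at hm
      rw [mem_Icc]; omega
    · intro m _ _; positivity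
  have hLsq : L ^ 2 ≤ (2 + 6 * A) ^ 2 * √n := by
    have h1 : Real.log n ≤ 4 * (n : ℝ) ^ (1 / 4 : ℝ) := by
      have := Real.log_le_rpow_div hn0.le (show (0 : ℝ) < 1 / 4 by norm_num)
      linarith
    have h2 : Real.logb 2 n ≤ 6 * (n : ℝ) ^ (1 / 4 : ℝ) := by
      rw [Real.logb, div_le_iff₀ (by linarith)]
      have : 0 < (n : ℝ) ^ (1 / 4 : ℝ) := by positivity
      nlinarith
    have h3 : 1 ≤ (n : ℝ) ^ (1 / 4 : ℝ) := Real.one_le_rpow (by linarith) (by norm_num)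
    have h4 : L ≤ (2 + 6 * A) * (n : ℝ) ^ (1 / 4 : ℝ) := by
      rw [hL]
      have : (A : ℝ) * Real.logb 2 n ≤ A * (6 * (n : ℝ) ^ (1 / 4 : ℝ)) := by gcongr
      linarith
    have h5 : ((n : ℝ) ^ (1 / 4 : ℝ)) ^ 2 = √n := by
      rw [← Real.rpow_natCast, ← Real.rpow_mul hn0.le, Real.sqrt_eq_rpow]; norm_num
    calc L ^ 2 ≤ ((2 + 6 * A) * (n : ℝ) ^ (1 / 4 : ℝ)) ^ 2 := by gcongr
      _ = (2 + 6 * A) ^ 2 * √n := by rw [mul_pow, h5]
  have hsq : √(n : ℝ) * √n = n := Real.mul_self_sqrt hn0.le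
  have hsqp : 0 < √(n : ℝ) := Real.sqrt_pos.2 hn0
  calc (B * (256 * CT * (2 ^ n / (b * (n : ℝ) ^ 2)) * L)) *
        ∑ m ∈ (Icc 1 (2 ^ n)).filter (fun m => m < 2 * n ^ A), 1 / (m : ℝ) ≤
        (B * (256 * CT * (2 ^ n / (b * (n : ℝ) ^ 2)) * L)) * L := by gcongr
    _ = B * (256 * CT * (2 ^ n / (b * (n : ℝ) ^ 2))) * L ^ 2 := by ring
    _ ≤ B * (256 * CT * (2 ^ n / (b * (n : ℝ) ^ 2))) * ((2 + 6 * A) ^ 2 * √n) := by gcongr
    _ = 256 * CT * (2 + 6 * A) ^ 2 * B * (2 ^ n / (b * (n * √n))) := by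
        have h1 : √(n : ℝ) / (n : ℝ) ^ 2 = 1 / (n * √n) := by
          rw [div_eq_div_iff (by positivity) (by positivity)]
          linear_combination (n : ℝ) * hsq
        calc _ = 256 * CT * (2 + 6 * A) ^ 2 * B * (2 ^ n / b) * (√(n : ℝ) / (n : ℝ) ^ 2) := by
              field_simp
          _ = _ := by rw [h1]; field_simp

theorem pf_NB (hBL : StmtBL) (hTW : StmtTW) : StmtNB := by
  classical
  obtain ⟨κ, A, n0, C1, hκ, hC1, hBL⟩ := hBL
  obtain ⟨CT, hCT, hTW⟩ := hTW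
  obtain ⟨n2, hn28, hn2⟩ := exists_n1 A
  set n1 := max n0 n2 with hn1
  set C2 : ℝ := 256 * CT * (2 + 6 * A) ^ 2 with hC2
  set C3 : ℝ := (2 : ℝ) ^ (2 * n1 + 2) * n1 ^ 2 with hC3
  have hC2p : 0 ≤ C2 := by rw [hC2]; positivity
  have hC3p : 0 ≤ C3 := by rw [hC3]; positivity
  refine ⟨κ, 4 * C1 + C2 + 2 + C3, hκ, by positivity, ?_⟩
  intro n hn b hb hb2 W B hW hWB
  have hb1 : 1 ≤ b := by
    rcases hb with rfl | h
    · exact le_rfl
    · exact h.one_lt.le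
  have hn0 : (0 : ℝ) < n := by exact_mod_cast hn
  have hn1' : (1 : ℝ) ≤ n := by exact_mod_cast hn
  have hb0 : (0 : ℝ) < b := by exact_mod_cast hb1
  have h2mem : 2 ∈ PN (n + 1) := by
    rw [mem_PN]
    refine ⟨Nat.prime_two, ?_⟩
    calc 2 = 2 ^ 1 := by norm_num
      _ ≤ 2 ^ (n + 1) := Nat.pow_le_pow_right (by norm_num) (by omega)
  have hB0 : 0 ≤ B := (hW 2).trans (hWB 2 h2mem)
  set T := ∑ k ∈ PN (n + 1), W k / k with hT
  have hT0 : 0 ≤ T := by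
    rw [hT]
    apply sum_nonneg
    intro k _
    have := hW k
    positivity
  have hsqp : 0 < √(n : ℝ) := Real.sqrt_pos.2 hn0
  have hsq : √(n : ℝ) * √n = n := Real.mul_self_sqrt hn0.le
  have hsq1 : 1 ≤ √(n : ℝ) := by rw [Real.one_le_sqrt]; exact hn1'
  have hsqn : √(n : ℝ) ≤ n := by nlinarith
  set X : ℝ := 2 ^ n / (b * n) with hX
  set Y : ℝ := 2 ^ n / (b * (n * √n)) with hY
  have hX0 : 0 ≤ X := by rw [hX]; positivity
  have hY0 : 0 ≤ Y := by rw [hY]; positivity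
  have hgoal : (4 * C1 + C2 + 2 + C3) * X * T +
      (4 * C1 + C2 + 2 + C3) * B * 2 ^ n / (b * (n * √n)) =
      (4 * C1 + C2 + 2 + C3) * X * T + (4 * C1 + C2 + 2 + C3) * (B * Y) := by
    rw [hY]; ring
  rw [hgoal]
  have hBY : 0 ≤ B * Y := mul_nonneg hB0 hY0
  have hXT : 0 ≤ X * T := mul_nonneg hX0 hT0
  rcases le_or_gt n1 n with hlarge | hsmall
  · rcases hB0.eq_or_lt with hB | hB
    · have hLHS : ∑ k ∈ PN (n + 1), W k *
          (((DB n).filter (fun p => b * k ∣ p - 1 ∧ ((p - 1) / (b * k)) ^ κ < 2 ^ n)).card : ℝ) =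
          0 := by
        apply sum_eq_zero
        intro k hk
        have h1 : W k = 0 := le_antisymm (by rw [hB]; exact hWB k hk) (hW k)
        rw [h1, zero_mul]
      rw [hLHS]
      positivity
    · have h1 := step1 (n := n) (κ := κ) hb1 hκ hW
      have h8 : 8 ≤ n := hn28.trans ((le_max_right _ _).trans hlarge)
      have h2 := small_part (κ := κ) hCT hTW hb hb2 h8
        (hn2 n ((le_max_right _ _).trans hlarge)) hB0 hWB
      have h3 := large_part (κ := κ) (A := A) hC1 hn hb1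
        (fun M h4 h5 => hBL n ((le_max_left _ _).trans hlarge) b hb hb2 M h4 h5) hB hW hWB
      rw [← sum_filter_add_sum_filter_not (Icc 1 (2 ^ n)) (fun m => m < 2 * n ^ A)] at h1
      have h4 : 2 * B * (2 ^ n / (b * (n : ℝ) ^ 9)) ≤ 2 * (B * Y) := by
        have h5 : (n : ℝ) * √n ≤ (n : ℝ) ^ 9 := by
          calc (n : ℝ) * √n ≤ n * n := by gcongr
            _ = (n : ℝ) ^ 2 := by ring
            _ ≤ (n : ℝ) ^ 9 := pow_le_pow_right₀ hn1' (by norm_num)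
        have h6 : 2 ^ n / (b * (n : ℝ) ^ 9) ≤ Y := by
          rw [hY]; gcongr
        calc 2 * B * (2 ^ n / (b * (n : ℝ) ^ 9)) ≤ 2 * B * Y := by gcongr
          _ = _ := by ring
      have h5 : C2 * B * Y = C2 * (B * Y) := by ring
      have h6 : 4 * C1 * X * T = 4 * C1 * (X * T) := by ring
      have h7 : 0 ≤ C2 * (X * T) := by positivity
      have h9 : 0 ≤ C3 * (X * T) := by positivity
      have h10 : 0 ≤ C1 * (B * Y) := by positivity
      have h11 : 0 ≤ C3 * (B * Y) := by positivity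
      have h12 : (4 * C1 + C2 + 2 + C3) * X * T + (4 * C1 + C2 + 2 + C3) * (B * Y) =
        4 * C1 * (X * T) + C2 * (X * T) + 2 * (X * T) + C3 * (X * T) +
        (4 * (C1 * (B * Y)) + C2 * (B * Y) + 2 * (B * Y) + C3 * (B * Y)) := by ring
      rw [h12]
      linarith
  · have h1 : ∀ k ∈ PN (n + 1), W k *
        (((DB n).filter (fun p => b * k ∣ p - 1 ∧ ((p - 1) / (b * k)) ^ κ < 2 ^ n)).card : ℝ) ≤
        B * 2 ^ n := by
      intro k hk
      have h2 : ((DB n).filter (fun p => b * k ∣ p - 1 ∧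
          ((p - 1) / (b * k)) ^ κ < 2 ^ n)).card ≤ 2 ^ n := by
        refine (card_filter_le _ _).trans ?_
        rw [DB]
        refine (card_filter_le _ _).trans ?_
        rw [Nat.card_Ioc, pow_succ]; omega
      have h3 : (((DB n).filter (fun p => b * k ∣ p - 1 ∧
          ((p - 1) / (b * k)) ^ κ < 2 ^ n)).card : ℝ) ≤ 2 ^ n := by exact_mod_cast h2
      have := hWB k hk
      gcongr
    have h2 := sum_le_sum h1
    rw [sum_const, nsmul_eq_mul] at h2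
    have h3 : ((PN (n + 1)).card : ℝ) ≤ 2 ^ (n + 1) := by
      have : (PN (n + 1)).card ≤ 2 ^ (n + 1) := by
        rw [PN]
        refine (card_filter_le _ _).trans ?_
        rw [Nat.card_Icc]; omega
      exact_mod_cast this
    have hb3 : (b : ℝ) ≤ 2 ^ (n + 1) := by
      have : b ≤ 2 ^ (n + 1) := by
        refine le_trans ?_ hb2
        nlinarith
      exact_mod_cast this
    have h4 : (2 : ℝ) ^ (n + 1) * (b * (n * √n)) ≤ C3 := by
      have h5 : (n : ℝ) ≤ n1 := by exact_mod_cast hsmall.le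
      calc (2 : ℝ) ^ (n + 1) * (b * (n * √n)) ≤ 2 ^ (n + 1) * (2 ^ (n + 1) * (n * n)) := by gcongr
        _ = (2 : ℝ) ^ (2 * n + 2) * n ^ 2 := by
            have : 2 * n + 2 = (n + 1) + (n + 1) := by ring
            rw [this, pow_add]; ring
        _ ≤ (2 : ℝ) ^ (2 * n1 + 2) * n1 ^ 2 := by
            have h6 : (2 : ℝ) ^ (2 * n + 2) ≤ 2 ^ (2 * n1 + 2) :=
              pow_le_pow_right₀ (by norm_num) (by omega)
            gcongr
    have h5 : (2 : ℝ) ^ (n + 1) * (B * 2 ^ n) ≤ C3 * (B * Y) := by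
      have h6 : (2 : ℝ) ^ (n + 1) * (B * 2 ^ n) = ((2 : ℝ) ^ (n + 1) * (b * (n * √n))) * (B * Y) := by
        rw [hY]; field_simp
      rw [h6]
      gcongr
    have h6 : ((PN (n + 1)).card : ℝ) * (B * 2 ^ n) ≤ (2 : ℝ) ^ (n + 1) * (B * 2 ^ n) := by gcongr
    have h7 : 0 ≤ C2 * (X * T) := by positivity
    have h9 : 0 ≤ C3 * (X * T) := by positivity
    have h10 : 0 ≤ C1 * (B * Y) := by positivity
    have h11 : 0 ≤ C2 * (B * Y) := by positivity
    have h13 : 0 ≤ C1 * (X * T) := by positivity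
    have h12 : (4 * C1 + C2 + 2 + C3) * X * T + (4 * C1 + C2 + 2 + C3) * (B * Y) =
        4 * (C1 * (X * T)) + C2 * (X * T) + 2 * (X * T) + C3 * (X * T) +
        (4 * (C1 * (B * Y)) + C2 * (B * Y) + 2 * (B * Y) + C3 * (B * Y)) := by ring
    rw [h12]
    linarith

end Pool.Agent.Helper96.Tot
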